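import Pool.Agent.H71.PC.Lib

/-!
# MP_d612eb_co for arbitrary Borel probability measures
-/

set_option autoImplicit false
set_option linter.unusedSectionVars false

open Finset MeasureTheory

namespace Pool.Agent.H71.PC

section Meas

variable {ι : Type} [Fintype ι] [DecidableEq ι]

lemma continuous_ev (x : ι → Bool) : Continuous (fun a : Finset ι → ℝ => ev a x) := by
  unfold ev
  fun_prop

lemma isCompact_sphere : IsCompact {a : Finset ι → ℝ | ∑ S, (a S) ^ 2 = 1} := by
  apply Metric.isCompact_of_isClosed_isBounded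
  · exact isClosed_eq (by fun_prop) continuous_const
  · refine (Metric.isBounded_closedBall (x := (0 : Finset ι → ℝ)) (r := 1)).subset ?_
    intro a ha
    rw [mem_closedBall_zero_iff, pi_norm_le_iff_of_nonneg zero_le_one]
    intro S
    have h1 : (a S) ^ 2 ≤ ∑ S, (a S) ^ 2 :=
      Finset.single_le_sum (f := fun S => (a S) ^ 2) (fun S _ => sq_nonneg _) (Finset.mem_univ S)
    have h2 : ∑ S, (a S) ^ 2 = 1 := ha
    rw [h2] at h1
    rw [Real.norm_eq_abs]
    exact (sq_le_one_iff_abs_le_one _).1 h1

lemma integ {F : Measure (Finset ι → ℝ)} [IsProbabilityMeasure F]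
    (hF : ∀ᵐ a ∂F, ∑ S, (a S) ^ 2 = 1) {h : (Finset ι → ℝ) → ℝ} (hc : Continuous h) :
    Integrable h F := by
  obtain ⟨C, hC⟩ := (isCompact_sphere (ι := ι)).exists_bound_of_continuousOn hc.continuousOn
  exact Integrable.of_bound hc.aestronglyMeasurable C (hF.mono fun a ha => hC a ha)

lemma avg_int {F : Measure (Finset ι → ℝ)} (h : (Finset ι → ℝ) → (ι → Bool) → ℝ)
    (hi : ∀ x, Integrable (fun a => h a x) F) :
    avg (fun x => ∫ a, h a x ∂F) = ∫ a, avg (h a) ∂F := by
  unfold avg
  rw [← integral_finset_sum _ (fun x _ => hi x), ← integral_div]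

/-- the density -/
noncomputable def densM (F : Measure (Finset ι → ℝ)) (x : ι → Bool) : ℝ :=
  ∫ a, (ev a x) ^ 2 ∂F

lemma avg_densM {F : Measure (Finset ι → ℝ)} [IsProbabilityMeasure F]
    (hF : ∀ᵐ a ∂F, ∑ S, (a S) ^ 2 = 1) : avg (densM F) = 1 := by
  have h1 : avg (densM F) = ∫ a, avg (fun x => (ev a x) ^ 2) ∂F :=
    avg_int (fun a x => (ev a x) ^ 2) (fun x => integ hF ((continuous_ev x).pow 2))
  rw [h1, integral_congr_ae (g := fun _ => (1 : ℝ)) (hF.mono fun a ha => by
    simp only [parseval, ha])]
  simp

lemma continuous_infl (i : ι) : Continuous (fun a : Finset ι → ℝ => infl i a) := by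
  unfold infl
  fun_prop

lemma densM_inf {F : Measure (Finset ι → ℝ)} [IsProbabilityMeasure F]
    (hF : ∀ᵐ a ∂F, ∑ S, (a S) ^ 2 = 1) (θ : ℝ) (hθ : 0 < θ) (i : ι)
    (hinf : ∫ a, infl i a ∂F ≤ θ ^ 2) :
    avg (fun x => |densM F (Function.update x i true) - densM F (Function.update x i false)|)
      ≤ 2 * (2 * θ) := by
  have hsq : ∀ y : ι → Bool, Integrable (fun a => (ev a y) ^ 2) F := fun y =>
    integ hF ((continuous_ev y).pow 2)
  have hin : Integrable (fun a => (2 / θ) * infl i a) F :=
    integ hF (continuous_const.mul (continuous_infl i))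
  have hci : ∀ x : ι → Bool, Continuous (fun a : Finset ι → ℝ => (1 / (2 * θ)) *
      (ev a (Function.update x i true) - ev a (Function.update x i false)) ^ 2 + (θ / 2) *
      (ev a (Function.update x i true) + ev a (Function.update x i false)) ^ 2) := fun x =>
    (continuous_const.mul (((continuous_ev _).sub (continuous_ev _)).pow 2)).add
      (continuous_const.mul (((continuous_ev _).add (continuous_ev _)).pow 2))
  calc avg (fun x => |densM F (Function.update x i true) - densM F (Function.update x i false)|)
      ≤ avg (fun x => ∫ a, ((1 / (2 * θ)) *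
          (ev a (Function.update x i true) - ev a (Function.update x i false)) ^ 2 + (θ / 2) *
          (ev a (Function.update x i true) + ev a (Function.update x i false)) ^ 2) ∂F) := by
        apply avg_mono
        intro x
        unfold densM
        rw [← integral_sub (hsq _) (hsq _)]
        refine (abs_integral_le_integral_abs).trans ?_
        apply integral_mono
        · exact ((hsq _).sub (hsq _)).abs
        · exact integ hF (hci x)
        · intro a
          exact abs_sq_sub_le _ _ θ hθ
    _ = ∫ a, avg (fun x => ((1 / (2 * θ)) *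
          (ev a (Function.update x i true) - ev a (Function.update x i false)) ^ 2 + (θ / 2) *
          (ev a (Function.update x i true) + ev a (Function.update x i false)) ^ 2)) ∂F :=
        avg_int (fun a x => ((1 / (2 * θ)) *
          (ev a (Function.update x i true) - ev a (Function.update x i false)) ^ 2 + (θ / 2) *
          (ev a (Function.update x i true) + ev a (Function.update x i false)) ^ 2))
          (fun x => integ hF (hci x))
    _ ≤ ∫ a, ((2 / θ) * infl i a + 2 * θ) ∂F := by
        apply integral_mono_ae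
        · apply integ hF
          unfold avg
          exact (continuous_finset_sum _ fun x _ => hci x).div_const _
        · exact integ hF ((continuous_const.mul (continuous_infl i)).add continuous_const)
        · refine hF.mono fun a ha => ?_
          show avg (fun x => ((1 / (2 * θ)) *
            (ev a (Function.update x i true) - ev a (Function.update x i false)) ^ 2 + (θ / 2) *
            (ev a (Function.update x i true) + ev a (Function.update x i false)) ^ 2)) ≤
            (2 / θ) * infl i a + 2 * θ
          rw [avg_add, avg_const_mul, avg_const_mul, avg_diff_sq]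
          have h1 := avg_add_sq_le i a
          rw [ha, mul_one] at h1
          have h2 : (θ / 2) * avg (fun x => (ev a (Function.update x i true)
              + ev a (Function.update x i false)) ^ 2) ≤ (θ / 2) * 4 :=
            mul_le_mul_of_nonneg_left h1 (by positivity)
          have h3 : 1 / (2 * θ) * (4 * infl i a) = (2 / θ) * infl i a := by
            field_simp
            norm_num
          rw [h3]
          linarith
    _ = (2 / θ) * ∫ a, infl i a ∂F + 2 * θ := by
        rw [integral_add hin (integrable_const _), integral_const_mul]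
        simp
    _ ≤ (2 / θ) * θ ^ 2 + 2 * θ := by
        have : (2 / θ) * ∫ a, infl i a ∂F ≤ (2 / θ) * θ ^ 2 :=
          mul_le_mul_of_nonneg_left hinf (by positivity)
        linarith
    _ = 2 * (2 * θ) := by
        field_simp
        ring

lemma ev_add (a b : Finset ι → ℝ) (x : ι → Bool) : ev (a + b) x = ev a x + ev b x := by
  unfold ev
  rw [← Finset.sum_add_distrib]
  exact Finset.sum_congr rfl fun S _ => by rw [Pi.add_apply]; ring

lemma ev_smul (c : ℝ) (a : Finset ι → ℝ) (x : ι → Bool) : ev (c • a) x = c * ev a x := by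
  unfold ev
  rw [Finset.mul_sum]
  exact Finset.sum_congr rfl fun S _ => by rw [Pi.smul_apply, smul_eq_mul]; ring

/-- the main estimate for two Borel probability measures, with two degrees and two bounds -/
theorem main_meas (k d : ℕ) (F G : Measure (Finset ι → ℝ)) [IsProbabilityMeasure F]
    [IsProbabilityMeasure G] (hF1 : ∀ a ∈ F.support, ∑ S, (a S) ^ 2 = 1)
    (hG1 : ∀ a ∈ G.support, ∑ S, (a S) ^ 2 = 1)
    (hFd : ∀ a ∈ F.support, ∀ S, a S ≠ 0 → S.card ≤ k)
    (hGd : ∀ a ∈ G.support, ∀ S, a S ≠ 0 → S.card ≤ d)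
    (θ₁ θ₂ : ℝ) (hθ₁ : 0 < θ₁) (hθ₂ : 0 < θ₂)
    (hFi : ∀ i, ∫ a, infl i a ∂F ≤ θ₁ ^ 2) (hGi : ∀ i, ∫ a, infl i a ∂G ≤ θ₂ ^ 2)
    (hab : ∀ a ∈ F.support, ∀ b ∈ G.support, ∀ x, ev a x * ev b x = 0) :
    1 ≤ 2 * ((d ^ 2 * (k * (k + 1)) : ℕ) : ℝ) * (θ₁ + θ₂) := by
  have hFae : ∀ᵐ a ∂F, a ∈ F.support := Measure.support_mem_ae
  have hGae : ∀ᵐ a ∂G, a ∈ G.support := Measure.support_mem_ae
  have hF : ∀ᵐ a ∂F, ∑ S, (a S) ^ 2 = 1 := hFae.mono hF1
  have hG : ∀ᵐ a ∂G, ∑ S, (a S) ^ 2 = 1 := hGae.mono hG1
  obtain ⟨B, hBs, hspan, hli⟩ := exists_linearIndependent ℝ G.support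
  have hBfin : B.Finite := hli.setFinite
  have : Fintype B := hBfin.fintype
  obtain ⟨τ, hτ, hs1, hs2⟩ := exists_tree (κ := F.support) (μ := B) d k (fun a => a.1)
    (fun b => b.1) (fun a S h => hFd a.1 a.2 S h) (fun b S h => hGd b.1 (hBs b.2) S h)
    (fun a b x => hab a.1 a.2 b.1 (hBs b.2) x)
  have hs1' : ∀ x, τ x = true → ∀ a ∈ F.support, ev a x = 0 := fun x hx a ha => hs1 x hx ⟨a, ha⟩
  have hs2' : ∀ x, τ x = false → ∀ b ∈ G.support, ev b x = 0 := by
    intro x hx b hb
    have hb' : b ∈ Submodule.span ℝ B := by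
      rw [hspan]
      exact Submodule.subset_span hb
    refine Submodule.span_induction (p := fun c _ => ev c x = 0) ?_ ?_ ?_ ?_ hb'
    · intro c hc
      exact hs2 x hx ⟨c, hc⟩
    · simp [ev]
    · intro u v _ _ hu hv
      rw [ev_add, hu, hv, add_zero]
    · intro c u _ hu
      rw [ev_smul, hu, mul_zero]
  have e1 := osss _ τ hτ (densM F) (2 * θ₁) (by positivity)
    (fun i => densM_inf hF θ₁ hθ₁ i (hFi i))
  have e2 := osss _ τ hτ (densM G) (2 * θ₂) (by positivity)
    (fun i => densM_inf hG θ₂ hθ₂ i (hGi i))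
  rw [avg_densM hF] at e1
  rw [avg_densM hG] at e2
  have z1 : (fun x => densM F x * ind τ x) = fun _ => (0 : ℝ) := by
    funext x
    unfold ind
    split_ifs with hx
    · have : densM F x = 0 := by
        unfold densM
        rw [integral_congr_ae (g := fun _ => (0 : ℝ)) (hFae.mono fun a ha => by
          simp only [hs1' x hx a ha]; norm_num)]
        simp
      rw [this, zero_mul]
    · ring
  have z2 : (fun x => densM G x * ind τ x) = densM G := by
    funext x
    unfold ind
    split_ifs with hx
    · ring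
    · have hx' : τ x = false := by simpa using hx
      have : densM G x = 0 := by
        unfold densM
        rw [integral_congr_ae (g := fun _ => (0 : ℝ)) (hGae.mono fun a ha => by
          simp only [hs2' x hx' a ha]; norm_num)]
        simp
      rw [this, zero_mul]
  rw [z1, avg_const] at e1
  rw [z2, avg_densM hG] at e2
  have f1 := (abs_le.mp e1).1
  have f2 := (abs_le.mp e2).2
  nlinarith [f1, f2]

end Meas

end Pool.Agent.H71.PC
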